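import Mathlib

/-!
# Almost invariant vectors are almost orthogonal to mixing vectors
-/

set_option autoImplicit false

open Filter Topology Finset

namespace Pool.Agent.TH225.OR

open scoped InnerProductSpace

variable {H : Type*} [NormedAddCommGroup H] [InnerProductSpace ℝ H]

theorem iso_iter_norm (U : H →ₗᵢ[ℝ] H) (n : ℕ) (a : H) : ‖(U^[n]) a‖ = ‖a‖ := by
  induction n with
  | zero => rfl
  | succ n ih => rw [Function.iterate_succ_apply', U.norm_map, ih]

theorem iso_iter_inner (U : H →ₗᵢ[ℝ] H) (n : ℕ) (a b : H) :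
    ⟪(U^[n]) a, (U^[n]) b⟫_ℝ = ⟪a, b⟫_ℝ := by
  induction n with
  | zero => rfl
  | succ n ih => rw [Function.iterate_succ_apply', Function.iterate_succ_apply', U.inner_map_map, ih]

theorem iso_iter_sub (U : H →ₗᵢ[ℝ] H) (n : ℕ) (a b : H) :
    (U^[n]) (a - b) = (U^[n]) a - (U^[n]) b := by
  induction n with
  | zero => rfl
  | succ n ih => rw [Function.iterate_succ_apply', ih, map_sub, Function.iterate_succ_apply',
      Function.iterate_succ_apply']

theorem iso_iter_sum (U : H →ₗᵢ[ℝ] H) (n : ℕ) (s : Finset ℕ) (a : ℕ → H) :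
    (U^[n]) (∑ i ∈ s, a i) = ∑ i ∈ s, (U^[n]) (a i) := by
  induction n with
  | zero => rfl
  | succ n ih =>
    rw [Function.iterate_succ_apply', ih, map_sum]
    exact Finset.sum_congr rfl (fun i _ => by rw [Function.iterate_succ_apply'])

/-- If `U d` is close to `d` then so are the first iterates. -/
theorem iter_close (U : H →ₗᵢ[ℝ] H) (d : H) {δ : ℝ} (h : ‖U d - d‖ ≤ δ) (l : ℕ) :
    ‖(U^[l]) d - d‖ ≤ l * δ := by
  induction l with
  | zero => simp
  | succ l ih =>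
    have h1 : (U^[l + 1]) d - d = ((U^[l]) (U d - d)) + ((U^[l]) d - d) := by
      rw [iso_iter_sub, Function.iterate_succ_apply]; abel
    rw [h1]
    refine (norm_add_le _ _).trans ?_
    rw [iso_iter_norm]
    push_cast
    linarith

/-- The sum of widely spaced iterates of a mixing vector is short. -/
theorem avg_small (U : H →ₗᵢ[ℝ] H) (a : H) (ha : ‖a‖ ≤ 1) {η : ℝ} (N m : ℕ)
    (hN : ∀ k : ℕ, N ≤ k → |⟪a, (U^[k]) a⟫_ℝ| ≤ η) :
    ‖∑ s ∈ range m, (U^[s * N]) a‖ ^ 2 ≤ m + m ^ 2 * η := by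
  have hη : 0 ≤ η := (abs_nonneg _).trans (hN N le_rfl)
  have hterm : ∀ s t : ℕ, ⟪(U^[s * N]) a, (U^[t * N]) a⟫_ℝ ≤ (if s = t then 1 else 0) + η := by
    have hlt : ∀ s t : ℕ, s < t → |⟪(U^[s * N]) a, (U^[t * N]) a⟫_ℝ| ≤ η := by
      intro s t hst
      have h1 : t * N = s * N + (t - s) * N := by
        rw [← add_mul]; congr 1; omega
      rw [h1, Function.iterate_add_apply, iso_iter_inner]
      apply hN
      have : 1 ≤ t - s := by omega
      nlinarith
    intro s t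
    rcases lt_trichotomy s t with h | h | h
    · have := le_of_abs_le (hlt s t h)
      simp [h.ne]; linarith
    · subst h
      rw [iso_iter_inner, real_inner_self_eq_norm_sq]
      simp
      nlinarith [norm_nonneg a]
    · have := le_of_abs_le (hlt t s h)
      rw [real_inner_comm]
      simp [h.ne']; linarith
  rw [← real_inner_self_eq_norm_sq, sum_inner]
  calc ∑ s ∈ range m, ⟪(U^[s * N]) a, ∑ t ∈ range m, (U^[t * N]) a⟫_ℝ
      = ∑ s ∈ range m, ∑ t ∈ range m, ⟪(U^[s * N]) a, (U^[t * N]) a⟫_ℝ :=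
        Finset.sum_congr rfl (fun s _ => inner_sum _ _ _)
    _ ≤ ∑ s ∈ range m, ∑ t ∈ range m, ((if s = t then (1 : ℝ) else 0) + η) :=
        Finset.sum_le_sum (fun s _ => Finset.sum_le_sum (fun t _ => hterm s t))
    _ = m + m ^ 2 * η := by
        have h : ∀ s ∈ range m, ∑ t ∈ range m, ((if s = t then (1 : ℝ) else 0) + η) = 1 + m * η := by
          intro s hs
          rw [Finset.sum_add_distrib, Finset.sum_ite_eq, if_pos hs]
          simp
        rw [Finset.sum_congr rfl h]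
        simp
        ring

/-- A mixing vector is almost orthogonal to all almost invariant vectors. -/
theorem almost_orth (U : H →ₗᵢ[ℝ] H) (a : H) (ha : ‖a‖ ≤ 1)
    (hmix : Tendsto (fun n : ℕ => ⟪a, (U^[n]) a⟫_ℝ) atTop (𝓝 0)) {ε : ℝ} (hε : 0 < ε) :
    ∃ δ : ℝ, 0 < δ ∧ ∀ d : H, ‖d‖ ≤ 1 → ‖U d - d‖ ≤ δ →
      ∀ n : ℕ, |⟪a, (U^[n]) d⟫_ℝ| ≤ ε ∧ |⟪d, (U^[n]) a⟫_ℝ| ≤ ε := by
  have hη : 0 < ε ^ 2 / 8 := by positivity
  obtain ⟨N0, hN0⟩ := (Metric.tendsto_atTop.1 hmix) (ε ^ 2 / 8) hη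
  set N : ℕ := N0 + 1 with hNdef
  have hN : ∀ k : ℕ, N ≤ k → |⟪a, (U^[k]) a⟫_ℝ| ≤ ε ^ 2 / 8 := by
    intro k hk
    have := hN0 k (by omega)
    rw [Real.dist_eq, sub_zero] at this
    exact this.le
  obtain ⟨m, hm⟩ := exists_nat_gt (8 / ε ^ 2)
  have hm0 : (0 : ℝ) < m := lt_trans (by positivity) hm
  have hm1 : 8 < m * ε ^ 2 := by
    rwa [div_lt_iff₀ (by positivity)] at hm
  have hNr : (0 : ℝ) < N := by rw [hNdef]; positivity
  set S : H := ∑ s ∈ range m, (U^[s * N]) a with hS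
  have hSn : ‖S‖ ≤ m * (ε / 2) := by
    have h1 := avg_small U a ha N m hN
    rw [← hS] at h1
    have h2 : ‖S‖ ^ 2 ≤ (m * (ε / 2)) ^ 2 := by
      nlinarith
    exact (abs_le_of_sq_le_sq' h2 (by positivity)).2
  refine ⟨ε / (2 * m * N), by positivity, ?_⟩
  intro d hd hUd n
  have hclose : ∀ s ∈ range m, ‖(U^[s * N]) d - d‖ ≤ ε / 2 := by
    intro s hs
    refine (iter_close U d hUd (s * N)).trans ?_
    have h3 : ((s * N : ℕ) : ℝ) ≤ m * N := by
      push_cast
      have : (s : ℝ) ≤ m := by exact_mod_cast (Finset.mem_range.1 hs).le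
      gcongr
    calc ((s * N : ℕ) : ℝ) * (ε / (2 * m * N)) ≤ (m * N) * (ε / (2 * m * N)) := by gcongr
      _ = ε / 2 := by field_simp
  have fin : ∀ x : ℝ, |m * x| ≤ m * ε → |x| ≤ ε := by
    intro x hx
    rw [abs_mul, abs_of_pos hm0] at hx
    exact le_of_mul_le_mul_left hx hm0
  constructor
  · apply fin
    have e1 : (m : ℝ) * ⟪a, (U^[n]) d⟫_ℝ = ⟪S, (U^[n]) d⟫_ℝ
        + ∑ s ∈ range m, ⟪(U^[s * N]) a, (U^[n]) ((U^[s * N]) d - d)⟫_ℝ := by
      rw [hS, sum_inner, ← Finset.sum_add_distrib]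
      have : ∀ s ∈ range m, ⟪(U^[s * N]) a, (U^[n]) d⟫_ℝ
          + ⟪(U^[s * N]) a, (U^[n]) ((U^[s * N]) d - d)⟫_ℝ = ⟪a, (U^[n]) d⟫_ℝ := by
        intro s _
        rw [← inner_add_right, iso_iter_sub, add_sub_cancel, ← Function.iterate_add_apply,
          Nat.add_comm n, Function.iterate_add_apply, iso_iter_inner]
      rw [Finset.sum_congr rfl this]
      simp
    rw [e1]
    refine (abs_add_le _ _).trans ?_
    have e2 : |⟪S, (U^[n]) d⟫_ℝ| ≤ m * (ε / 2) := by
      refine (abs_real_inner_le_norm _ _).trans ?_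
      rw [iso_iter_norm]
      nlinarith [norm_nonneg S, norm_nonneg d]
    have e3 : |∑ s ∈ range m, ⟪(U^[s * N]) a, (U^[n]) ((U^[s * N]) d - d)⟫_ℝ| ≤ m * (ε / 2) := by
      refine (Finset.abs_sum_le_sum_abs _ _).trans ?_
      calc ∑ s ∈ range m, |⟪(U^[s * N]) a, (U^[n]) ((U^[s * N]) d - d)⟫_ℝ|
          ≤ ∑ s ∈ range m, (ε / 2) := by
            refine Finset.sum_le_sum (fun s hs => ?_)
            refine (abs_real_inner_le_norm _ _).trans ?_
            rw [iso_iter_norm, iso_iter_norm]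
            have := hclose s hs
            nlinarith [norm_nonneg a, norm_nonneg ((U^[s * N]) d - d)]
        _ = m * (ε / 2) := by simp
    linarith
  · apply fin
    have e1 : (m : ℝ) * ⟪d, (U^[n]) a⟫_ℝ = ⟪d, (U^[n]) S⟫_ℝ
        + ∑ s ∈ range m, ⟪(U^[s * N]) d - d, (U^[n]) ((U^[s * N]) a)⟫_ℝ := by
      rw [hS, iso_iter_sum, inner_sum, ← Finset.sum_add_distrib]
      have : ∀ s ∈ range m, ⟪d, (U^[n]) ((U^[s * N]) a)⟫_ℝ
          + ⟪(U^[s * N]) d - d, (U^[n]) ((U^[s * N]) a)⟫_ℝ = ⟪d, (U^[n]) a⟫_ℝ := by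
        intro s _
        rw [← inner_add_left, add_sub_cancel, ← Function.iterate_add_apply,
          Nat.add_comm n, Function.iterate_add_apply, iso_iter_inner]
      rw [Finset.sum_congr rfl this]
      simp
    rw [e1]
    refine (abs_add_le _ _).trans ?_
    have e2 : |⟪d, (U^[n]) S⟫_ℝ| ≤ m * (ε / 2) := by
      refine (abs_real_inner_le_norm _ _).trans ?_
      rw [iso_iter_norm]
      nlinarith [norm_nonneg S, norm_nonneg d]
    have e3 : |∑ s ∈ range m, ⟪(U^[s * N]) d - d, (U^[n]) ((U^[s * N]) a)⟫_ℝ| ≤ m * (ε / 2) := by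
      refine (Finset.abs_sum_le_sum_abs _ _).trans ?_
      calc ∑ s ∈ range m, |⟪(U^[s * N]) d - d, (U^[n]) ((U^[s * N]) a)⟫_ℝ|
          ≤ ∑ s ∈ range m, (ε / 2) := by
            refine Finset.sum_le_sum (fun s hs => ?_)
            refine (abs_real_inner_le_norm _ _).trans ?_
            rw [iso_iter_norm, iso_iter_norm]
            have := hclose s hs
            nlinarith [norm_nonneg a, norm_nonneg ((U^[s * N]) d - d)]
        _ = m * (ε / 2) := by simp
    linarith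

end Pool.Agent.TH225.OR
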