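import Mathlib

/-!
# Choosing a sequence at separated scales, and the final estimate
-/

set_option autoImplicit false

open Filter Topology Finset

namespace Pool.Agent.TH225.OR

theorem exists_seq {α : Type*} (Q : List α → α → Prop) (h : ∀ l, ∃ x, Q l x) :
    ∃ f : ℕ → α, ∀ n, Q ((List.range n).map f) (f n) := by
  choose F hF using h
  let l : ℕ → List α := fun n => Nat.rec [] (fun _ l => l ++ [F l]) n
  have hl : ∀ n, l (n + 1) = l n ++ [F (l n)] := fun n => rfl
  refine ⟨fun n => F (l n), fun n => ?_⟩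
  have : ∀ n, (List.range n).map (fun n => F (l n)) = l n := by
    intro n
    induction n with
    | zero => rfl
    | succ n ih => rw [List.range_succ, List.map_append, ih, hl]; rfl
  rw [this]
  exact hF _

/-- The errors. -/
noncomputable def er (p : ℕ) : ℝ := (1 / 10000) * (9 / 10) ^ (2 * p)

theorem er_pos (p : ℕ) : 0 < er p := by unfold er; positivity

theorem er_anti {p q : ℕ} (h : p ≤ q) : er q ≤ er p := by
  unfold er
  have : ((9 : ℝ) / 10) ^ (2 * q) ≤ (9 / 10) ^ (2 * p) :=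
    pow_le_pow_of_le_one (by norm_num) (by norm_num) (by omega)
  linarith

/-- The lower bounds on the diagonal. -/
noncomputable def dg (p i : ℕ) : ℝ := if i = p then -(1 / 4) else if p < i then 1 / 5 else 0

theorem main_seq {G : Type*} (c : G → G → ℕ → ℝ)
    (hdec : ∀ g g', Tendsto (c g g') atTop (𝓝 0))
    (hlow : ∀ g n, -(1 / 4) ≤ c g g n)
    (hnew : ∀ (l : List G) (ε : ℝ) (L : ℕ), 0 < ε →
      ∃ g', (∀ g ∈ l, ∀ n, |c g g' n| ≤ ε ∧ |c g' g n| ≤ ε) ∧ ∀ n ≤ L, 1 / 5 ≤ c g' g' n) :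
    ∃ D : ℕ → G, ∀ n : ℕ, ∃ p : ℕ, ∀ i k,
      -(er p) + (if i = k then dg p i else 0) ≤ c (D i) (D k) n := by
  classical
  obtain ⟨f, hf⟩ := exists_seq (α := G × ℕ) (fun l x => (∀ y ∈ l, y.2 < x.2) ∧
    (∀ n ≥ x.2, ∀ y ∈ l, ∀ z ∈ l, |c y.1 z.1 n| ≤ er l.length) ∧
    (∀ y ∈ l, ∀ n, |c y.1 x.1 n| ≤ er l.length ∧ |c x.1 y.1 n| ≤ er l.length) ∧
    ∀ n ≤ x.2, 1 / 5 ≤ c x.1 x.1 n) (by
      intro l
      have ev1 : ∀ᶠ L : ℕ in atTop, ∀ y ∈ {y | y ∈ l}, y.2 < L :=
        (Filter.eventually_all_finite (List.finite_toSet l)).2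
          (fun y _ => eventually_gt_atTop y.2)
      have ev2 : ∀ᶠ n : ℕ in atTop, ∀ y ∈ {y | y ∈ l}, ∀ z ∈ {y | y ∈ l},
          |c y.1 z.1 n| ≤ er l.length := by
        refine (Filter.eventually_all_finite (List.finite_toSet l)).2 (fun y _ => ?_)
        refine (Filter.eventually_all_finite (List.finite_toSet l)).2 (fun z _ => ?_)
        have h1 := (hdec y.1 z.1).eventually (Metric.ball_mem_nhds 0 (er_pos l.length))
        filter_upwards [h1] with n hn
        have hn' : dist (c y.1 z.1 n) 0 < er l.length := hn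
        rw [Real.dist_eq, sub_zero] at hn'
        exact hn'.le
      obtain ⟨L, hL1, hL2⟩ := (ev1.and (eventually_forall_ge_atTop.2 ev2)).exists
      obtain ⟨g', hg1, hg2⟩ := hnew (l.map Prod.fst) (er l.length) L (er_pos _)
      refine ⟨(g', L), fun y hy => hL1 y hy, fun n hn y hy z hz => hL2 n hn y hy z hz, ?_, hg2⟩
      intro y hy n
      exact hg1 y.1 (List.mem_map.2 ⟨y, hy, rfl⟩) n)
  have hmem : ∀ {i j : ℕ}, i < j → f i ∈ (List.range j).map f := fun {i j} h =>
    List.mem_map.2 ⟨i, List.mem_range.2 h, rfl⟩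
  have h1 : ∀ i j, i < j → (f i).2 < (f j).2 := fun i j h => (hf j).1 _ (hmem h)
  have h2 : ∀ i k j, i < j → k < j → ∀ n ≥ (f j).2, |c (f i).1 (f k).1 n| ≤ er j := by
    intro i k j hi hk n hn
    have := (hf j).2.1 n hn _ (hmem hi) _ (hmem hk)
    simpa using this
  have h3 : ∀ i j, i < j → ∀ n, |c (f i).1 (f j).1 n| ≤ er j ∧ |c (f j).1 (f i).1 n| ≤ er j := by
    intro i j hi n
    have := (hf j).2.2.1 _ (hmem hi) n
    simpa using this
  have h4 : ∀ j, ∀ n ≤ (f j).2, 1 / 5 ≤ c (f j).1 (f j).1 n := fun j => (hf j).2.2.2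
  have hmono : StrictMono (fun j => (f j).2) := fun i j h => h1 i j h
  refine ⟨fun j => (f j).1, fun n => ?_⟩
  have hex : ∃ j, n < (f j).2 := ⟨n + 1, lt_of_lt_of_le (Nat.lt_succ_self n) (hmono.le_apply)⟩
  set j0 := Nat.find hex with hj0
  have hj1 : n < (f j0).2 := Nat.find_spec hex
  refine ⟨j0 - 1, ?_⟩
  set p := j0 - 1 with hp
  have hlow' : ∀ i < j0, (f i).2 ≤ n := fun i hi => not_lt.1 (Nat.find_min hex hi)
  have hoff : ∀ i k, i < k → |c (f i).1 (f k).1 n| ≤ er p ∧ |c (f k).1 (f i).1 n| ≤ er p := by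
    intro i k hik
    rcases Nat.lt_or_ge k p with hk | hk
    · have hn := hlow' p (by omega)
      exact ⟨h2 i k p (by omega) hk n hn, h2 k i p hk (by omega) n hn⟩
    · have h5 := h3 i k hik n
      exact ⟨h5.1.trans (er_anti hk), h5.2.trans (er_anti hk)⟩
  intro i k
  have hep := er_pos p
  rcases lt_trichotomy i k with h | h | h
  · rw [if_neg h.ne]
    have := neg_le_of_abs_le (hoff i k h).1
    linarith
  · subst h
    rw [if_pos rfl]
    unfold dg
    rcases lt_trichotomy i p with h | h | h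
    · rw [if_neg h.ne, if_neg (by omega)]
      have hn := hlow' p (by omega)
      have := neg_le_of_abs_le (h2 i i p h h n hn)
      linarith
    · rw [if_pos h]
      have := hlow (f i).1 n
      linarith
    · rw [if_neg h.ne', if_pos h]
      have h6 : (f j0).2 ≤ (f i).2 := hmono.monotone (by omega)
      have := h4 i n (by omega)
      linarith
  · rw [if_neg h.ne']
    have := neg_le_of_abs_le (hoff k i h).2
    linarith

theorem geom_le (m : ℕ) : ∑ i ∈ range m, ((9 : ℝ) / 10) ^ i ≤ 10 := by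
  rw [geom_sum_eq (by norm_num)]
  have : (0 : ℝ) ≤ (9 / 10) ^ m := by positivity
  rw [div_le_iff_of_neg (by norm_num)]
  linarith

theorem final_sum (C : ℕ → ℕ → ℝ) (p m : ℕ)
    (h : ∀ i k, -(er p) + (if i = k then dg p i else 0) ≤ C i k) (hm : p + 4 ≤ m) :
    (1 / 10) * ((9 : ℝ) / 10) ^ (2 * p) ≤
      ∑ i ∈ range m, ∑ k ∈ range m, ((9 : ℝ) / 10) ^ i * (9 / 10) ^ k * C i k := by
  have h1 : ∑ i ∈ range m, ∑ k ∈ range m, ((9 : ℝ) / 10) ^ i * (9 / 10) ^ k *
      (-(er p) + (if i = k then dg p i else 0)) ≤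
      ∑ i ∈ range m, ∑ k ∈ range m, ((9 : ℝ) / 10) ^ i * (9 / 10) ^ k * C i k :=
    Finset.sum_le_sum (fun i _ => Finset.sum_le_sum (fun k _ =>
      mul_le_mul_of_nonneg_left (h i k) (by positivity)))
  refine le_trans ?_ h1
  have h2 : ∀ i ∈ range m, ∑ k ∈ range m, ((9 : ℝ) / 10) ^ i * (9 / 10) ^ k *
      (-(er p) + (if i = k then dg p i else 0)) =
      -(er p) * (((9 : ℝ) / 10) ^ i * ∑ k ∈ range m, ((9 : ℝ) / 10) ^ k)
        + ((9 : ℝ) / 10) ^ i * (9 / 10) ^ i * dg p i := by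
    intro i hi
    have h3 : ∀ k ∈ range m, ((9 : ℝ) / 10) ^ i * (9 / 10) ^ k *
        (-(er p) + (if i = k then dg p i else 0)) =
        -(er p) * (9 / 10) ^ i * (9 / 10) ^ k +
          (if i = k then ((9 : ℝ) / 10) ^ i * (9 / 10) ^ k * dg p i else 0) := by
      intro k _
      split_ifs <;> ring
    rw [Finset.sum_congr rfl h3, Finset.sum_add_distrib, Finset.sum_ite_eq, if_pos hi,
      ← Finset.mul_sum]
    ring
  rw [Finset.sum_congr rfl h2, Finset.sum_add_distrib, ← Finset.mul_sum, ← Finset.sum_mul]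
  have hS := geom_le m
  have hS0 : 0 ≤ ∑ i ∈ range m, ((9 : ℝ) / 10) ^ i := Finset.sum_nonneg (fun i _ => by positivity)
  have h4 : (∑ i ∈ range m, ((9 : ℝ) / 10) ^ i) * ∑ i ∈ range m, ((9 : ℝ) / 10) ^ i ≤ 100 := by
    nlinarith
  have h5 : (4 / 10 - 1 / 4 - 1 / 1000) * ((9 : ℝ) / 10) ^ (2 * p) ≤
      ∑ i ∈ range m, ((9 : ℝ) / 10) ^ i * (9 / 10) ^ i * dg p i := by
    obtain ⟨r, rfl⟩ := Nat.exists_eq_add_of_le hm
    rw [show p + 4 + r = p + (4 + r) by ring, Finset.sum_range_add, Finset.sum_range_add]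
    have e1 : ∑ x ∈ range p, ((9 : ℝ) / 10) ^ x * (9 / 10) ^ x * dg p x = 0 := by
      refine Finset.sum_eq_zero (fun x hx => ?_)
      have := Finset.mem_range.1 hx
      unfold dg
      rw [if_neg this.ne, if_neg (by omega)]
      ring
    have e2 : 0 ≤ ∑ x ∈ range r, ((9 : ℝ) / 10) ^ (p + (4 + x)) * (9 / 10) ^ (p + (4 + x)) *
        dg p (p + (4 + x)) := by
      refine Finset.sum_nonneg (fun x _ => ?_)
      unfold dg
      rw [if_neg (by omega), if_pos (by omega)]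
      positivity
    have e3 : ∑ x ∈ range 4, ((9 : ℝ) / 10) ^ (p + x) * (9 / 10) ^ (p + x) * dg p (p + x) =
        ((9 : ℝ) / 10) ^ (2 * p) * (-(1 / 4) + (1 / 5) * ((9 / 10) ^ 2 + (9 / 10) ^ 4 + (9 / 10) ^ 6)) := by
      have d0 : dg p (p + 0) = -(1 / 4) := by simp [dg]
      have d1 : dg p (p + 1) = 1 / 5 := by unfold dg; rw [if_neg (by omega), if_pos (by omega)]
      have d2 : dg p (p + 2) = 1 / 5 := by unfold dg; rw [if_neg (by omega), if_pos (by omega)]
      have d3 : dg p (p + 3) = 1 / 5 := by unfold dg; rw [if_neg (by omega), if_pos (by omega)]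
      rw [Finset.sum_range_succ, Finset.sum_range_succ, Finset.sum_range_succ,
        Finset.sum_range_succ, Finset.sum_range_zero, d0, d1, d2, d3]
      ring
    rw [e1, e3]
    have hpos : (0 : ℝ) < (9 / 10) ^ (2 * p) := by positivity
    nlinarith
  have hpos : (0 : ℝ) < (9 / 10) ^ (2 * p) := by positivity
  have h6 : er p * ((∑ i ∈ range m, ((9 : ℝ) / 10) ^ i) * ∑ i ∈ range m, ((9 : ℝ) / 10) ^ i) ≤
      er p * 100 := mul_le_mul_of_nonneg_left h4 (er_pos p).le
  have h7 : er p * 100 = (1 / 100) * (9 / 10) ^ (2 * p) := by unfold er; ring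
  nlinarith

end Pool.Agent.TH225.OR
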