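import Pool.Agent.TH225.OR.Sets
import Pool.Agent.TH225.OR.Hilb
import Pool.Agent.TH225.OR.Seq

/-!
# Bounded over-recurrent functions in mixing systems
-/

set_option autoImplicit false

open MeasureTheory Filter Topology Set

namespace Pool.Agent.TH225.OR

open scoped InnerProductSpace

variable {X : Type*} [MeasurableSpace X] {μ : Measure X} [IsProbabilityMeasure μ] {T : X → X}

/-- The centred indicator function of `D`. -/
noncomputable def u (μ : Measure X) (D : Set X) (x : X) : ℝ :=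
  D.indicator (fun _ => (1 : ℝ)) x - μ.real D

theorem u_abs (D : Set X) (x : X) : |u μ D x| ≤ 1 := by
  have h0 : 0 ≤ μ.real D := measureReal_nonneg
  have h1 : μ.real D ≤ 1 := measureReal_le_one
  unfold u
  by_cases hx : x ∈ D
  · rw [indicator_of_mem hx, abs_le]; constructor <;> linarith
  · rw [indicator_of_notMem hx, abs_le]; constructor <;> linarith

theorem u_meas {D : Set X} (hD : MeasurableSet D) : Measurable (u μ D) :=
  (measurable_const.indicator hD).sub measurable_const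

theorem u_memLp {D : Set X} (hD : MeasurableSet D) : MemLp (u μ D) 2 μ :=
  MemLp.of_bound (u_meas hD).aestronglyMeasurable 1 (ae_of_all _ (fun x => by
    rw [Real.norm_eq_abs]; exact u_abs D x))

theorem int_ind {A : Set X} (hA : MeasurableSet A) :
    ∫ x, A.indicator (fun _ => (1 : ℝ)) x ∂μ = μ.real A := by
  rw [integral_indicator hA]; simp

theorem int_u {D : Set X} (hD : MeasurableSet D) : ∫ x, u μ D x ∂μ = 0 := by
  unfold u
  rw [integral_sub ((integrable_const (1 : ℝ)).indicator hD) (integrable_const _), int_ind hD]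
  simp

/-- The correlations. -/
noncomputable def cor (μ : Measure X) (T : X → X) (A B : Set X) (n : ℕ) : ℝ :=
  μ.real (A ∩ T^[n] ⁻¹' B) - μ.real A * μ.real B

theorem cor_eq (hT : MeasurePreserving T μ μ) {A B : Set X} (hA : MeasurableSet A)
    (hB : MeasurableSet B) (n : ℕ) :
    ∫ x, u μ A x * u μ B (T^[n] x) ∂μ = cor μ T A B n := by
  have hBn : MeasurableSet (T^[n] ⁻¹' B) := (hT.measurable.iterate n) hB
  have h1 : ∀ x, u μ A x * u μ B (T^[n] x) =
      (A ∩ T^[n] ⁻¹' B).indicator (fun _ => (1 : ℝ)) x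
        - μ.real B * A.indicator (fun _ => (1 : ℝ)) x
        - μ.real A * (T^[n] ⁻¹' B).indicator (fun _ => (1 : ℝ)) x
        + μ.real A * μ.real B := by
    intro x
    unfold u
    by_cases hx : x ∈ A <;> by_cases hy : T^[n] x ∈ B
    · have h3 : x ∈ A ∩ T^[n] ⁻¹' B := ⟨hx, hy⟩
      have h4 : x ∈ T^[n] ⁻¹' B := hy
      rw [indicator_of_mem hx, indicator_of_mem hy, indicator_of_mem h3, indicator_of_mem h4]; ring
    · have h3 : x ∉ A ∩ T^[n] ⁻¹' B := fun h => hy h.2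
      have h4 : x ∉ T^[n] ⁻¹' B := hy
      rw [indicator_of_mem hx, indicator_of_notMem hy, indicator_of_notMem h3,
        indicator_of_notMem h4]; ring
    · have h3 : x ∉ A ∩ T^[n] ⁻¹' B := fun h => hx h.1
      have h4 : x ∈ T^[n] ⁻¹' B := hy
      rw [indicator_of_notMem hx, indicator_of_mem hy, indicator_of_notMem h3,
        indicator_of_mem h4]; ring
    · have h3 : x ∉ A ∩ T^[n] ⁻¹' B := fun h => hx h.1
      have h4 : x ∉ T^[n] ⁻¹' B := hy
      rw [indicator_of_notMem hx, indicator_of_notMem hy, indicator_of_notMem h3,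
        indicator_of_notMem h4]; ring
  have i1 : Integrable ((A ∩ T^[n] ⁻¹' B).indicator (fun _ => (1 : ℝ))) μ :=
    (integrable_const (1 : ℝ)).indicator (hA.inter hBn)
  have i2 : Integrable (A.indicator (fun _ => (1 : ℝ))) μ := (integrable_const (1 : ℝ)).indicator hA
  have i3 : Integrable ((T^[n] ⁻¹' B).indicator (fun _ => (1 : ℝ))) μ :=
    (integrable_const (1 : ℝ)).indicator hBn
  have hpre : μ.real (T^[n] ⁻¹' B) = μ.real B :=
    (hT.iterate n).measureReal_preimage hB.nullMeasurableSet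
  have j1 : Integrable (fun x => (A ∩ T^[n] ⁻¹' B).indicator (fun _ => (1 : ℝ)) x
      - μ.real B * A.indicator (fun _ => (1 : ℝ)) x) μ := i1.sub (i2.const_mul _)
  have j2 : Integrable (fun x => (A ∩ T^[n] ⁻¹' B).indicator (fun _ => (1 : ℝ)) x
      - μ.real B * A.indicator (fun _ => (1 : ℝ)) x
      - μ.real A * (T^[n] ⁻¹' B).indicator (fun _ => (1 : ℝ)) x) μ := j1.sub (i3.const_mul _)
  rw [integral_congr_ae (ae_of_all _ h1), integral_add j2 (integrable_const _),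
    integral_sub j1 (i3.const_mul _),
    integral_sub i1 (i2.const_mul _), integral_const_mul, integral_const_mul, int_ind (hA.inter hBn),
    int_ind hA, int_ind hBn, hpre]
  unfold cor
  simp
  ring

/-- The vector of `L²` given by a measurable set. -/
noncomputable def v (D : {D : Set X // MeasurableSet D}) : Lp ℝ 2 μ := (u_memLp D.2).toLp (u μ D.1)

theorem inner_toLp {f g : X → ℝ} (hf : MemLp f 2 μ) (hg : MemLp g 2 μ) :
    ⟪hf.toLp f, hg.toLp g⟫_ℝ = ∫ x, f x * g x ∂μ := by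
  rw [L2.inner_def]
  refine integral_congr_ae ?_
  filter_upwards [hf.coeFn_toLp, hg.coeFn_toLp] with x h1 h2
  rw [h1, h2]
  simp [mul_comm]

theorem iter_toLp (hT : MeasurePreserving T μ μ) {f : X → ℝ} (hf : MemLp f 2 μ) (n : ℕ) :
    ((Lp.compMeasurePreservingₗᵢ ℝ T hT : Lp ℝ 2 μ →ₗᵢ[ℝ] Lp ℝ 2 μ)^[n]) (hf.toLp f) =
      (hf.comp_measurePreserving (hT.iterate n)).toLp (f ∘ T^[n]) := by
  induction n with
  | zero => rfl
  | succ n ih =>
    rw [Function.iterate_succ_apply', ih]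
    exact Lp.toLp_compMeasurePreserving _ hT

theorem inner_v (hT : MeasurePreserving T μ μ) (A B : {D : Set X // MeasurableSet D}) (n : ℕ) :
    ⟪(v A : Lp ℝ 2 μ), ((Lp.compMeasurePreservingₗᵢ ℝ T hT : Lp ℝ 2 μ →ₗᵢ[ℝ] Lp ℝ 2 μ)^[n]) (v B)⟫_ℝ =
      cor μ T A.1 B.1 n := by
  unfold v
  rw [iter_toLp, inner_toLp, ← cor_eq hT A.2 B.2 n]
  rfl

theorem norm_v_sq (hT : MeasurePreserving T μ μ) (A : {D : Set X // MeasurableSet D}) :
    ‖(v A : Lp ℝ 2 μ)‖ ^ 2 = μ.real A.1 - μ.real A.1 ^ 2 := by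
  have h := inner_v hT A A 0
  rw [Function.iterate_zero_apply, real_inner_self_eq_norm_sq] at h
  rw [h]
  unfold cor
  simp
  ring

theorem norm_Uv_sub (hT : MeasurePreserving T μ μ) (A : {D : Set X // MeasurableSet D}) :
    ‖(Lp.compMeasurePreservingₗᵢ ℝ T hT : Lp ℝ 2 μ →ₗᵢ[ℝ] Lp ℝ 2 μ) (v A) - v A‖ ^ 2 =
      μ.real (A.1 \ T ⁻¹' A.1) + μ.real (T ⁻¹' A.1 \ A.1) := by
  have hTA : MeasurableSet (T ⁻¹' A.1) := hT.measurable A.2
  have h0 : (Lp.compMeasurePreservingₗᵢ ℝ T hT : Lp ℝ 2 μ →ₗᵢ[ℝ] Lp ℝ 2 μ) (v A) =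
      ((u_memLp A.2).comp_measurePreserving hT).toLp (u μ A.1 ∘ T) :=
    Lp.toLp_compMeasurePreserving _ hT
  have h1 : (Lp.compMeasurePreservingₗᵢ ℝ T hT : Lp ℝ 2 μ →ₗᵢ[ℝ] Lp ℝ 2 μ) (v A) - v A =
      (((u_memLp A.2).comp_measurePreserving hT).sub (u_memLp A.2)).toLp
        (u μ A.1 ∘ T - u μ A.1) := by
    rw [h0]; rfl
  rw [h1, ← real_inner_self_eq_norm_sq, inner_toLp, ← int_ind (μ := μ) (A.2.diff hTA),
    ← int_ind (μ := μ) (hTA.diff A.2),
    ← integral_add ((integrable_const (1 : ℝ)).indicator (A.2.diff hTA))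
      ((integrable_const (1 : ℝ)).indicator (hTA.diff A.2))]
  refine integral_congr_ae (ae_of_all _ (fun x => ?_))
  simp only [Pi.sub_apply, Function.comp_apply, u]
  by_cases hx : x ∈ A.1 <;> by_cases hy : T x ∈ A.1
  · have h3 : x ∉ A.1 \ T ⁻¹' A.1 := fun h => h.2 hy
    have h4 : x ∉ T ⁻¹' A.1 \ A.1 := fun h => h.2 hx
    rw [indicator_of_mem hx, indicator_of_mem hy, indicator_of_notMem h3, indicator_of_notMem h4]
    ring
  · have h3 : x ∈ A.1 \ T ⁻¹' A.1 := ⟨hx, hy⟩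
    have h4 : x ∉ T ⁻¹' A.1 \ A.1 := fun h => h.2 hx
    rw [indicator_of_mem hx, indicator_of_notMem hy, indicator_of_mem h3, indicator_of_notMem h4]
    ring
  · have h3 : x ∉ A.1 \ T ⁻¹' A.1 := fun h => hx h.1
    have h4 : x ∈ T ⁻¹' A.1 \ A.1 := ⟨hy, hx⟩
    rw [indicator_of_notMem hx, indicator_of_mem hy, indicator_of_notMem h3, indicator_of_mem h4]
    ring
  · have h3 : x ∉ A.1 \ T ⁻¹' A.1 := fun h => hx h.1
    have h4 : x ∉ T ⁻¹' A.1 \ A.1 := fun h => hy h.1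
    rw [indicator_of_notMem hx, indicator_of_notMem hy, indicator_of_notMem h3,
      indicator_of_notMem h4]
    ring

theorem tendsto_cor (hmix : Mix μ T) {A B : Set X} (hA : MeasurableSet A) (hB : MeasurableSet B) :
    Tendsto (cor μ T A B) atTop (𝓝 0) := by
  have h := (hmix A B hA hB).sub_const (μ.real A * μ.real B)
  rw [sub_self] at h
  exact h

theorem exists_delta (hmix : Mix μ T) (hT : MeasurePreserving T μ μ)
    (l : List {D : Set X // MeasurableSet D}) {ε : ℝ} (hε : 0 < ε) :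
    ∃ δ : ℝ, 0 < δ ∧ ∀ d : Lp ℝ 2 μ, ‖d‖ ≤ 1 →
      ‖(Lp.compMeasurePreservingₗᵢ ℝ T hT : Lp ℝ 2 μ →ₗᵢ[ℝ] Lp ℝ 2 μ) d - d‖ ≤ δ →
      ∀ g ∈ l, ∀ n : ℕ,
      |⟪(v g : Lp ℝ 2 μ), ((Lp.compMeasurePreservingₗᵢ ℝ T hT : Lp ℝ 2 μ →ₗᵢ[ℝ] Lp ℝ 2 μ)^[n]) d⟫_ℝ| ≤ ε
      ∧ |⟪d, ((Lp.compMeasurePreservingₗᵢ ℝ T hT : Lp ℝ 2 μ →ₗᵢ[ℝ] Lp ℝ 2 μ)^[n]) (v g)⟫_ℝ| ≤ ε := by
  induction l with
  | nil => exact ⟨1, one_pos, fun d _ _ g hg => by simp at hg⟩
  | cons g l ih =>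
    obtain ⟨δ, hδ, h⟩ := ih
    have hv1 : ‖(v g : Lp ℝ 2 μ)‖ ≤ 1 := by
      have h2 := norm_v_sq hT g
      have h3 : μ.real g.1 ≤ 1 := measureReal_le_one
      nlinarith [norm_nonneg (v g : Lp ℝ 2 μ), sq_nonneg (μ.real g.1)]
    have hv2 : Tendsto (fun n : ℕ => ⟪(v g : Lp ℝ 2 μ),
        ((Lp.compMeasurePreservingₗᵢ ℝ T hT : Lp ℝ 2 μ →ₗᵢ[ℝ] Lp ℝ 2 μ)^[n]) (v g)⟫_ℝ) atTop (𝓝 0) := by
      simp only [inner_v]
      exact tendsto_cor hmix g.2 g.2
    obtain ⟨δ', hδ', h'⟩ := almost_orth _ _ hv1 hv2 hε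
    refine ⟨min δ δ', lt_min hδ hδ', fun d hd hd' g' hg' n => ?_⟩
    rcases List.mem_cons.1 hg' with rfl | hg'
    · exact h' d hd (hd'.trans (min_le_right _ _)) n
    · exact h d hd (hd'.trans (min_le_left _ _)) g' hg' n

theorem exists_new (hmix : Mix μ T) (hT : MeasurePreserving T μ μ) (A : Set X)
    (hA : MeasurableSet A) (h0 : 0 < μ.real A) (h1 : μ.real A < 1)
    (l : List {D : Set X // MeasurableSet D}) (ε : ℝ) (L : ℕ) (hε : 0 < ε) :
    ∃ g' : {D : Set X // MeasurableSet D},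
      (∀ g ∈ l, ∀ n, |cor μ T g.1 g'.1 n| ≤ ε ∧ |cor μ T g'.1 g.1 n| ≤ ε) ∧
      ∀ n ≤ L, 1 / 5 ≤ cor μ T g'.1 g'.1 n := by
  obtain ⟨δ, hδ, h⟩ := exists_delta hmix hT l hε
  set δ1 : ℝ := min δ (1 / (100 * (L + 1))) with hδ1
  have hδ1pos : 0 < δ1 := lt_min hδ (by positivity)
  have hδ1le : δ1 ≤ 1 / (100 * (L + 1)) := min_le_right _ _
  have hδ1L : L * δ1 ≤ 1 / 100 := by
    have hL : (0 : ℝ) < L + 1 := by positivity
    calc (L : ℝ) * δ1 ≤ (L + 1) * (1 / (100 * (L + 1))) := by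
          gcongr
          linarith
      _ = 1 / 100 := by field_simp
  have hδ1s : δ1 ≤ 1 / 100 := by
    refine hδ1le.trans ?_
    apply one_div_le_one_div_of_le (by norm_num)
    have : (0 : ℝ) ≤ L := Nat.cast_nonneg L
    linarith
  obtain ⟨D, hD, hD1, hD2, hD3, hD4⟩ := almost_inv hmix hT A hA h0 h1
    (β := δ1 ^ 2 / 2) (by positivity)
  let g' : {D : Set X // MeasurableSet D} := ⟨D, hD⟩
  have hs := norm_v_sq hT g'
  have hs' : ‖(v g' : Lp ℝ 2 μ)‖ ^ 2 = μ.real D - μ.real D ^ 2 := hs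
  have hv1 : ‖(v g' : Lp ℝ 2 μ)‖ ≤ 1 := by
    have h3 : μ.real D ≤ 1 := measureReal_le_one
    nlinarith [norm_nonneg (v g' : Lp ℝ 2 μ), sq_nonneg (μ.real D)]
  have hU := norm_Uv_sub hT g'
  have hU1 : ‖(Lp.compMeasurePreservingₗᵢ ℝ T hT : Lp ℝ 2 μ →ₗᵢ[ℝ] Lp ℝ 2 μ) (v g') - v g'‖ ≤ δ1 := by
    have h4 : ‖(Lp.compMeasurePreservingₗᵢ ℝ T hT : Lp ℝ 2 μ →ₗᵢ[ℝ] Lp ℝ 2 μ) (v g') - v g'‖ ^ 2
        ≤ δ1 ^ 2 := by
      rw [hU]
      change μ.real (D \ T ⁻¹' D) + μ.real (T ⁻¹' D \ D) ≤ δ1 ^ 2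
      linarith
    exact (abs_le_of_sq_le_sq' h4 hδ1pos.le).2
  refine ⟨g', fun g hg n => ?_, fun n hn => ?_⟩
  · have := h (v g') hv1 (hU1.trans (min_le_left _ _)) g hg n
    rw [inner_v, inner_v] at this
    exact this
  · rw [← inner_v hT g' g' n]
    have h5 := iter_close _ (v g' : Lp ℝ 2 μ) hU1 n
    have h6 : ⟪(v g' : Lp ℝ 2 μ),
        ((Lp.compMeasurePreservingₗᵢ ℝ T hT : Lp ℝ 2 μ →ₗᵢ[ℝ] Lp ℝ 2 μ)^[n]) (v g')⟫_ℝ =
        ‖(v g' : Lp ℝ 2 μ)‖ ^ 2 + ⟪(v g' : Lp ℝ 2 μ),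
        ((Lp.compMeasurePreservingₗᵢ ℝ T hT : Lp ℝ 2 μ →ₗᵢ[ℝ] Lp ℝ 2 μ)^[n]) (v g') - v g'⟫_ℝ := by
      rw [inner_sub_right, real_inner_self_eq_norm_sq]; ring
    rw [h6, hs']
    have h7 := abs_real_inner_le_norm (v g' : Lp ℝ 2 μ)
      (((Lp.compMeasurePreservingₗᵢ ℝ T hT : Lp ℝ 2 μ →ₗᵢ[ℝ] Lp ℝ 2 μ)^[n]) (v g') - v g')
    have h8 : (n : ℝ) * δ1 ≤ 1 / 100 := by
      refine le_trans ?_ hδ1L
      have : (n : ℝ) ≤ L := by exact_mod_cast hn
      gcongr
    have h9 : ‖(v g' : Lp ℝ 2 μ)‖ *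
        ‖((Lp.compMeasurePreservingₗᵢ ℝ T hT : Lp ℝ 2 μ →ₗᵢ[ℝ] Lp ℝ 2 μ)^[n]) (v g') - v g'‖ ≤ 1 / 100 := by
      nlinarith [norm_nonneg (v g' : Lp ℝ 2 μ),
        norm_nonneg (((Lp.compMeasurePreservingₗᵢ ℝ T hT : Lp ℝ 2 μ →ₗᵢ[ℝ] Lp ℝ 2 μ)^[n]) (v g') - v g')]
    have h10 := neg_le_of_abs_le h7
    have h11 : δ1 ^ 2 / 2 ≤ 1 / 100 := by nlinarith
    nlinarith

/-- The finite sums. -/
noncomputable def F (μ : Measure X) (D : ℕ → {D : Set X // MeasurableSet D}) (m : ℕ) (x : X) : ℝ :=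
  ∑ i ∈ Finset.range m, ((9 : ℝ) / 10) ^ i * u μ (D i).1 x

theorem F_meas (D : ℕ → {D : Set X // MeasurableSet D}) (m : ℕ) : Measurable (F μ D m) := by
  unfold F
  exact Finset.measurable_sum _ (fun i _ => (u_meas (D i).2).const_mul _)

theorem F_abs (D : ℕ → {D : Set X // MeasurableSet D}) (m : ℕ) (x : X) : |F μ D m x| ≤ 10 := by
  unfold F
  refine (Finset.abs_sum_le_sum_abs _ _).trans (le_trans ?_ (geom_le m))
  refine Finset.sum_le_sum (fun i _ => ?_)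
  rw [abs_mul, abs_of_nonneg (by positivity)]
  have := u_abs (μ := μ) (D i).1 x
  have h : (0 : ℝ) ≤ (9 / 10) ^ i := by positivity
  nlinarith

theorem int_F (D : ℕ → {D : Set X // MeasurableSet D}) (m : ℕ) : ∫ x, F μ D m x ∂μ = 0 := by
  unfold F
  rw [integral_finset_sum]
  · refine Finset.sum_eq_zero (fun i _ => ?_)
    rw [integral_const_mul, int_u (D i).2, mul_zero]
  · intro i _
    exact ((u_memLp (D i).2).integrable (by norm_num)).const_mul _

theorem int_FF (hT : MeasurePreserving T μ μ) (D : ℕ → {D : Set X // MeasurableSet D})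
    (m n : ℕ) : ∫ x, F μ D m x * F μ D m (T^[n] x) ∂μ =
      ∑ i ∈ Finset.range m, ∑ k ∈ Finset.range m,
        ((9 : ℝ) / 10) ^ i * (9 / 10) ^ k * cor μ T (D i).1 (D k).1 n := by
  have h1 : ∀ x, F μ D m x * F μ D m (T^[n] x) = ∑ i ∈ Finset.range m, ∑ k ∈ Finset.range m,
      ((9 : ℝ) / 10) ^ i * (9 / 10) ^ k * (u μ (D i).1 x * u μ (D k).1 (T^[n] x)) := by
    intro x
    unfold F
    rw [Finset.sum_mul_sum]
    exact Finset.sum_congr rfl (fun i _ => Finset.sum_congr rfl (fun k _ => by ring))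
  have hint : ∀ i k, Integrable (fun x => ((9 : ℝ) / 10) ^ i * (9 / 10) ^ k *
      (u μ (D i).1 x * u μ (D k).1 (T^[n] x))) μ := by
    intro i k
    refine Integrable.const_mul ?_ _
    refine Integrable.of_bound (C := 1) ?_ (ae_of_all _ (fun x => ?_))
    · exact ((u_meas (D i).2).mul ((u_meas (D k).2).comp
        (hT.measurable.iterate n))).aestronglyMeasurable
    · rw [Real.norm_eq_abs, abs_mul]
      have h2 := u_abs (μ := μ) (D i).1 x
      have h3 := u_abs (μ := μ) (D k).1 (T^[n] x)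
      nlinarith [abs_nonneg (u μ (D i).1 x), abs_nonneg (u μ (D k).1 (T^[n] x))]
  rw [integral_congr_ae (ae_of_all _ h1), integral_finset_sum _
    (fun i _ => integrable_finset_sum _ (fun k _ => hint i k))]
  refine Finset.sum_congr rfl (fun i _ => ?_)
  rw [integral_finset_sum _ (fun k _ => hint i k)]
  refine Finset.sum_congr rfl (fun k _ => ?_)
  rw [integral_const_mul, cor_eq hT (D i).2 (D k).2]

/-- Every nontrivial mixing system has a bounded strictly over-recurrent function. -/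
theorem exists_over_recurrent (hmix : Mix μ T) (hT : MeasurePreserving T μ μ) (A : Set X)
    (hA : MeasurableSet A) (h0 : 0 < μ.real A) (h1 : μ.real A < 1) :
    ∃ f : X → ℝ, Measurable f ∧ (∀ x, |f x| ≤ 10) ∧ ∫ x, f x ∂μ = 0 ∧
      ∀ n : ℕ, 0 < ∫ x, f x * f (T^[n] x) ∂μ := by
  obtain ⟨D, hD⟩ := main_seq (G := {D : Set X // MeasurableSet D})
    (fun g g' n => cor μ T g.1 g'.1 n)
    (fun g g' => tendsto_cor hmix g.2 g'.2)
    (fun g n => by
      have h2 := abs_real_inner_le_norm (v g : Lp ℝ 2 μ)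
        (((Lp.compMeasurePreservingₗᵢ ℝ T hT : Lp ℝ 2 μ →ₗᵢ[ℝ] Lp ℝ 2 μ)^[n]) (v g))
      rw [iso_iter_norm, inner_v, ← pow_two, norm_v_sq hT g] at h2
      have h3 := neg_le_of_abs_le h2
      nlinarith [sq_nonneg (μ.real g.1 - 1 / 2)])
    (fun l ε L hε => exists_new hmix hT A hA h0 h1 l ε L hε)
  have hsum : ∀ x, Summable (fun i => ((9 : ℝ) / 10) ^ i * u μ (D i).1 x) := by
    intro x
    refine Summable.of_norm_bounded (g := fun i => ((9 : ℝ) / 10) ^ i)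
      (summable_geometric_of_lt_one (by norm_num) (by norm_num)) (fun i => ?_)
    rw [Real.norm_eq_abs, abs_mul, abs_of_nonneg (by positivity)]
    have := u_abs (μ := μ) (D i).1 x
    have h : (0 : ℝ) ≤ (9 / 10) ^ i := by positivity
    nlinarith
  set f : X → ℝ := fun x => ∑' i, ((9 : ℝ) / 10) ^ i * u μ (D i).1 x with hf
  have hlim : ∀ x, Tendsto (fun m => F μ D m x) atTop (𝓝 (f x)) := fun x =>
    (hsum x).hasSum.tendsto_sum_nat
  have hfm : Measurable f := by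
    refine measurable_of_tendsto_metrizable (fun m => F_meas (μ := μ) D m) ?_
    rw [tendsto_pi_nhds]
    exact hlim
  have hfb : ∀ x, |f x| ≤ 10 := fun x =>
    le_of_tendsto (hlim x).abs (Eventually.of_forall (fun m => F_abs D m x))
  refine ⟨f, hfm, hfb, ?_, ?_⟩
  · have h2 : Tendsto (fun m => ∫ x, F μ D m x ∂μ) atTop (𝓝 (∫ x, f x ∂μ)) := by
      refine tendsto_integral_of_dominated_convergence (fun _ => (10 : ℝ))
        (fun m => (F_meas D m).aestronglyMeasurable) (integrable_const _)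
        (fun m => ae_of_all _ (fun x => ?_)) (ae_of_all _ hlim)
      rw [Real.norm_eq_abs]; exact F_abs D m x
    simp only [int_F] at h2
    exact (tendsto_nhds_unique tendsto_const_nhds h2).symm
  · intro n
    obtain ⟨p, hp⟩ := hD n
    have h2 : Tendsto (fun m => ∫ x, F μ D m x * F μ D m (T^[n] x) ∂μ) atTop
        (𝓝 (∫ x, f x * f (T^[n] x) ∂μ)) := by
      refine tendsto_integral_of_dominated_convergence (fun _ => (100 : ℝ))
        (fun m => ((F_meas D m).mul ((F_meas D m).comp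
          (hT.measurable.iterate n))).aestronglyMeasurable) (integrable_const _)
        (fun m => ae_of_all _ (fun x => ?_)) (ae_of_all _ (fun x => ?_))
      · rw [Real.norm_eq_abs, abs_mul]
        have h3 := F_abs (μ := μ) D m x
        have h4 := F_abs (μ := μ) D m (T^[n] x)
        nlinarith [abs_nonneg (F μ D m x), abs_nonneg (F μ D m (T^[n] x))]
      · exact (hlim x).mul (hlim _)
    have h3 : (1 / 10) * ((9 : ℝ) / 10) ^ (2 * p) ≤ ∫ x, f x * f (T^[n] x) ∂μ := by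
      refine ge_of_tendsto h2 ?_
      filter_upwards [eventually_ge_atTop (p + 4)] with m hm
      rw [int_FF hT]
      exact final_sum _ p m hp hm
    refine lt_of_lt_of_le ?_ h3
    positivity

end Pool.Agent.TH225.OR
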