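import Mathlib

/-!
# Almost invariant sets of measure one half in mixing systems
-/

set_option autoImplicit false

open MeasureTheory Filter Topology Set

namespace Pool.Agent.TH225.OR

variable {X : Type*} [MeasurableSpace X] {μ : Measure X} [IsProbabilityMeasure μ] {T : X → X}

/-- Mixing, with real-valued measures. -/
def Mix (μ : Measure X) (T : X → X) : Prop :=
  ∀ A B : Set X, MeasurableSet A → MeasurableSet B →
    Tendsto (fun n : ℕ => μ.real (A ∩ T^[n] ⁻¹' B)) atTop (𝓝 (μ.real A * μ.real B))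

theorem small_step (hmix : Mix μ T) (hT : MeasurePreserving T μ μ) (A : Set X)
    (hA : MeasurableSet A) (h0 : 0 < μ.real A) (h1 : μ.real A < 1) :
    ∃ B : Set X, MeasurableSet B ∧ 0 < μ.real B ∧ μ.real B ≤ μ.real A * ((1 + μ.real A) / 2) := by
  have h := hmix A A hA hA
  have h2 : 0 < μ.real A * μ.real A := mul_pos h0 h0
  have h3 : μ.real A * μ.real A < μ.real A * ((1 + μ.real A) / 2) := by nlinarith
  obtain ⟨n, hn1, hn2⟩ := ((h.eventually (lt_mem_nhds h2)).and
    (h.eventually (gt_mem_nhds h3))).exists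
  exact ⟨_, hA.inter ((hT.measurable.iterate n) hA), hn1, le_of_lt hn2⟩

theorem small_sets (hmix : Mix μ T) (hT : MeasurePreserving T μ μ) (A : Set X)
    (hA : MeasurableSet A) (h0 : 0 < μ.real A) (h1 : μ.real A < 1) {β : ℝ} (hβ : 0 < β) :
    ∃ B : Set X, MeasurableSet B ∧ 0 < μ.real B ∧ μ.real B ≤ β := by
  set r : ℝ := (1 + μ.real A) / 2 with hr
  have hr0 : 0 < r := by positivity
  have hr1 : r < 1 := by rw [hr]; linarith
  have key : ∀ k : ℕ, ∃ B : Set X, MeasurableSet B ∧ 0 < μ.real B ∧ μ.real B ≤ μ.real A * r ^ k := by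
    intro k
    induction k with
    | zero => exact ⟨A, hA, h0, by simp⟩
    | succ k ih =>
      obtain ⟨B, hB, hB0, hB1⟩ := ih
      have hle : μ.real B ≤ μ.real A := by
        refine hB1.trans ?_
        have := pow_le_one₀ (n := k) hr0.le hr1.le
        nlinarith
      obtain ⟨B', hB', hB'0, hB'1⟩ := small_step hmix hT B hB hB0 (lt_of_le_of_lt hle h1)
      refine ⟨B', hB', hB'0, hB'1.trans ?_⟩
      have h5 : (1 + μ.real B) / 2 ≤ r := by rw [hr]; linarith
      calc μ.real B * ((1 + μ.real B) / 2) ≤ μ.real B * r := by gcongr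
        _ ≤ (μ.real A * r ^ k) * r := by gcongr
        _ = μ.real A * r ^ (k + 1) := by ring
  obtain ⟨k, hk⟩ := exists_pow_lt_of_lt_one hβ hr1
  obtain ⟨B, hB, hB0, hB1⟩ := key k
  refine ⟨B, hB, hB0, hB1.trans ?_⟩
  have : 0 < r ^ k := pow_pos hr0 k
  nlinarith

/-- The points which visit `B` before time `M`. -/
def hit (T : X → X) (B : Set X) (M : ℕ) : Set X := {x | ∃ k < M, T^[k] x ∈ B}

/-- The points which visit `B`. -/
def hits (T : X → X) (B : Set X) : Set X := {x | ∃ k, T^[k] x ∈ B}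

theorem hit_eq (T : X → X) (B : Set X) (M : ℕ) :
    hit T B M = ⋃ k ∈ Finset.range M, T^[k] ⁻¹' B := by
  ext x; simp [hit]

theorem hits_eq (T : X → X) (B : Set X) : hits T B = ⋃ k, T^[k] ⁻¹' B := by
  ext x; simp [hits]

theorem measurable_hit (hT : Measurable T) {B : Set X} (hB : MeasurableSet B) (M : ℕ) :
    MeasurableSet (hit T B M) := by
  rw [hit_eq]
  exact Finset.measurableSet_biUnion _ (fun k _ => (hT.iterate k) hB)

theorem measurable_hits (hT : Measurable T) {B : Set X} (hB : MeasurableSet B) :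
    MeasurableSet (hits T B) := by
  rw [hits_eq]
  exact MeasurableSet.iUnion (fun k => (hT.iterate k) hB)

theorem hits_full (hmix : Mix μ T) (hT : MeasurePreserving T μ μ) {B : Set X}
    (hB : MeasurableSet B) (h0 : 0 < μ.real B) : μ.real (hits T B) = 1 := by
  have hm := measurable_hits (T := T) hT.measurable hB
  have h := hmix _ _ hm hm
  have h2 : ∀ n : ℕ, μ.real (hits T B ∩ T^[n] ⁻¹' hits T B) = μ.real (hits T B) := by
    intro n
    have h3 : hits T B ∩ T^[n] ⁻¹' hits T B = T^[n] ⁻¹' hits T B := by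
      apply Set.inter_eq_right.2
      rintro x ⟨k, hk⟩
      refine ⟨k + n, ?_⟩
      rw [Function.iterate_add_apply]
      exact hk
    rw [h3]
    exact (hT.iterate n).measureReal_preimage hm.nullMeasurableSet
  simp only [h2] at h
  have h4 := tendsto_nhds_unique tendsto_const_nhds h
  have h5 : 0 < μ.real (hits T B) := by
    refine lt_of_lt_of_le h0 (measureReal_mono ?_)
    intro x hx
    exact ⟨0, by simpa using hx⟩
  have h6 : μ.real (hits T B) * (μ.real (hits T B) - 1) = 0 := by linarith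
  rcases mul_eq_zero.1 h6 with h7 | h7
  · exact absurd h7 h5.ne'
  · linarith

theorem hit_mono (T : X → X) (B : Set X) : Monotone (hit T B) := by
  intro a b hab x hx
  obtain ⟨k, hk, hkx⟩ := hx
  exact ⟨k, lt_of_lt_of_le hk hab, hkx⟩

theorem iUnion_hit (T : X → X) (B : Set X) : ⋃ M, hit T B M = hits T B := by
  ext x
  simp only [hit, hits, mem_iUnion, mem_setOf_eq]
  constructor
  · rintro ⟨M, k, -, hk⟩; exact ⟨k, hk⟩
  · rintro ⟨k, hk⟩; exact ⟨k + 1, k, Nat.lt_succ_self k, hk⟩

/-- There are almost invariant sets of measure close to one half. -/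
theorem almost_inv (hmix : Mix μ T) (hT : MeasurePreserving T μ μ) (A : Set X)
    (hA : MeasurableSet A) (h0 : 0 < μ.real A) (h1 : μ.real A < 1) {β : ℝ} (hβ : 0 < β) :
    ∃ D : Set X, MeasurableSet D ∧ 1 / 2 ≤ μ.real D ∧ μ.real D ≤ 1 / 2 + β ∧
      μ.real (D \ T ⁻¹' D) ≤ β ∧ μ.real (T ⁻¹' D \ D) ≤ β := by
  obtain ⟨B, hB, hB0, hB1⟩ := small_sets hmix hT A hA h0 h1 hβ
  have hlim : Tendsto (fun M => μ.real (hit T B M)) atTop (𝓝 1) := by
    have h2 := tendsto_measure_iUnion_atTop (μ := μ) (hit_mono T B)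
    rw [iUnion_hit] at h2
    have h3 := (ENNReal.tendsto_toReal (measure_ne_top μ (hits T B))).comp h2
    have h4 := hits_full hmix hT hB hB0
    rw [Measure.real] at h4
    rw [h4] at h3
    exact h3
  have hex : ∃ M, 1 / 2 ≤ μ.real (hit T B M) := by
    obtain ⟨M, hM⟩ := (hlim.eventually (lt_mem_nhds (show (1 / 2 : ℝ) < 1 by norm_num))).exists
    exact ⟨M, hM.le⟩
  classical
  set M := Nat.find hex with hMdef
  have hM1 : 1 / 2 ≤ μ.real (hit T B M) := Nat.find_spec hex
  have hMpos : M ≠ 0 := by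
    intro h
    rw [h] at hM1
    have : hit T B 0 = ∅ := by ext x; simp [hit]
    rw [this] at hM1
    simp at hM1
    linarith
  obtain ⟨K, hK⟩ := Nat.exists_eq_succ_of_ne_zero hMpos
  have hK1 : μ.real (hit T B K) < 1 / 2 := by
    have := Nat.find_min hex (m := K) (by omega)
    exact not_le.1 this
  have hpre : ∀ k : ℕ, μ.real (T^[k] ⁻¹' B) = μ.real B := fun k =>
    (hT.iterate k).measureReal_preimage hB.nullMeasurableSet
  refine ⟨hit T B M, measurable_hit hT.measurable hB M, hM1, ?_, ?_, ?_⟩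
  · have h5 : hit T B M ⊆ hit T B K ∪ T^[K] ⁻¹' B := by
      rintro x ⟨k, hk, hkx⟩
      rcases Nat.lt_succ_iff_lt_or_eq.1 (hK ▸ hk) with h | h
      · exact Or.inl ⟨k, h, hkx⟩
      · right; rw [h] at hkx; exact hkx
    have h6 := measureReal_mono (μ := μ) h5
    have h7 := measureReal_union_le (μ := μ) (hit T B K) (T^[K] ⁻¹' B)
    rw [hpre K] at h7
    linarith
  · refine (measureReal_mono (μ := μ) (s₂ := B) ?_).trans hB1
    rintro x ⟨⟨k, hk, hkx⟩, hx2⟩
    rcases Nat.eq_zero_or_pos k with h | h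
    · rw [h] at hkx; simpa using hkx
    · exfalso
      apply hx2
      refine ⟨k - 1, by omega, ?_⟩
      rw [← Function.iterate_succ_apply]
      have : (k - 1).succ = k := by omega
      rw [this]; exact hkx
  · have h8 : T ⁻¹' hit T B M \ hit T B M ⊆ T^[M] ⁻¹' B := by
      rintro x ⟨⟨k, hk, hkx⟩, hx2⟩
      rw [← Function.iterate_succ_apply] at hkx
      rcases Nat.lt_or_ge (k + 1) M with h | h
      · exact absurd ⟨k + 1, h, hkx⟩ hx2
      · have : k.succ = M := by omega
        rw [this] at hkx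
        exact hkx
    refine (measureReal_mono (μ := μ) h8).trans ?_
    rw [hpre M]; exact hB1

end Pool.Agent.TH225.OR
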